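import Pool.Agent.Y911.US.Prox

/-!
# Vojta's inequality on the line for almost all `S` and almost all points

`K` is a number field of degree `d`, `D` is the sum of `q ≥ 3` distinct points `α_1, …, α_q` of
the projective line over `K`. For a nonzero ideal `n`, `S(n)` consists of the infinite places, the
primes of a fixed finite set `S₀` and the primes dividing `n`. All heights, proximity functions
and counting functions are absolute (divided by `d`).
-/

set_option autoImplicit false

namespace Pool.Agent.Results.MP_e44225_nt.AlmostAllPlacesAndPoints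

open NumberField IsDedekindDomain

section Defs

variable {K : Type} [Field K] [NumberField K]

/-- the absolute logarithmic height (the height of Mathlib is relative to `K`) -/
noncomputable def height (x : Fin 2 → K) : ℝ :=
  Height.logHeight x / (Module.finrank ℚ K : ℝ)

/-- the Weil function of the point `a` at the point `x` for the absolute value `p` -/
noncomputable def lam (p : K → ℝ) (a x : Fin 2 → K) : ℝ :=
  Real.log (max (p (x 0)) (p (x 1)) * max (p (a 0)) (p (a 1)) / p (x 0 * a 1 - x 1 * a 0))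

/-- the proximity function `m_S(D, x)`, `D = ∑ α_l`, where `S` consists of the infinite places
and the primes of `T` -/
noncomputable def prox (T : Set (HeightOneSpectrum (𝓞 K))) {q : ℕ} (α : Fin q → Fin 2 → K)
    (x : Fin 2 → K) : ℝ :=
  (∑ w : InfinitePlace K, (w.mult : ℝ) * ∑ l : Fin q, lam w (α l) x +
    ∑ᶠ (v : HeightOneSpectrum (𝓞 K)) (_ : v ∈ T), ∑ l : Fin q, lam (FinitePlace.mk v) (α l) x) /
      (Module.finrank ℚ K : ℝ)

/-- the truncated counting function of `D`: the sum over the primes outside `T` and over `l` of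
the minimum of the local height and of `log N(v)`, divided by `d` -/
noncomputable def counting (T : Set (HeightOneSpectrum (𝓞 K))) {q : ℕ} (α : Fin q → Fin 2 → K)
    (x : Fin 2 → K) : ℝ :=
  ∑ᶠ (v : HeightOneSpectrum (𝓞 K)) (_ : v ∉ T), ∑ l : Fin q,
    min (lam (FinitePlace.mk v) (α l) x / (Module.finrank ℚ K : ℝ))
      (Real.log (Ideal.absNorm v.asIdeal : ℝ) / (Module.finrank ℚ K : ℝ))

/-- the points of the projective line over `K` off `D` with counting function at most `log Y`;
there is no condition on the height -/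
def Points (T : Set (HeightOneSpectrum (𝓞 K))) {q : ℕ} (α : Fin q → Fin 2 → K) (Y : ℝ) :
    Set (Projectivization K (Fin 2 → K)) :=
  {P | ∃ (x : Fin 2 → K) (hx : x ≠ 0), P = Projectivization.mk K x hx ∧
    (∀ l, x 0 * α l 1 - x 1 * α l 0 ≠ 0) ∧ counting T α x ≤ Real.log Y}

/-- the points of `Points T α Y` at which `m_S(D, x) > ε h(x) + B` -/
def Close (T : Set (HeightOneSpectrum (𝓞 K))) {q : ℕ} (α : Fin q → Fin 2 → K) (ε B Y : ℝ) :
    Set (Projectivization K (Fin 2 → K)) :=
  {P | ∃ (x : Fin 2 → K) (hx : x ≠ 0), P = Projectivization.mk K x hx ∧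
    (∀ l, x 0 * α l 1 - x 1 * α l 0 ≠ 0) ∧ counting T α x ≤ Real.log Y ∧
    ε * height x + B < prox T α x}

/-- the primes of `S₀` and those dividing `n` -/
def primesOf (S₀ : Set (HeightOneSpectrum (𝓞 K))) (n : Ideal (𝓞 K)) :
    Set (HeightOneSpectrum (𝓞 K)) := S₀ ∪ {v | n ≤ v.asIdeal}

end Defs

section Average

variable (K : Type) [Field K] [NumberField K]

/-- the nonzero ideals of norm at most `X` -/
noncomputable def ideals (X : ℕ) : Finset (Ideal (𝓞 K)) :=
  (Pool.Agent.Y911.RR.fin_ids K X : {n : Ideal (𝓞 K) | n ≠ ⊥ ∧ Ideal.absNorm n ≤ X}.Finite).toFinset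

/-- the proportion of the nonzero ideals of norm at most `X` in the set `Q` -/
noncomputable def proportion (X : ℕ) (Q : Set (Ideal (𝓞 K))) : ℝ :=
  ({n | n ∈ ideals K X ∧ n ∈ Q}.ncard : ℝ) / (ideals K X).card

end Average

/-- **Vojta's inequality holds for almost all `S` and almost all points, with room to spare.**
(0) The sets of points `Points (primesOf S₀ n) α Y` are finite, and have at least
`Y ^ (2 d / q - η)` elements for `Y ≥ Y₀(η)`, uniformly in `n`.
(1) For all `ε > 0` and `B` there are `ν > 0` and `C` such that for all `X ≥ 1` and `δ > 0`, for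
all ideals `n` of norm `≤ X` but a proportion `δ`, for all `Y ≥ 1` at most
`(C / δ) Y ^ (2 d / q - ν)` of these points satisfy `m_{S(n)}(D, x) > ε h(x) + B`.
(2) For every `δ > 0` there is `Y₁`, independent of `X`, such that for all ideals `n` of norm
`≤ X` but a proportion `δ`, for all `Y ≥ Y₁`, this is at most the proportion `Y ^ (-ν)` of the
points. -/
theorem result (K : Type) [Field K] [NumberField K] (S₀ : Set (HeightOneSpectrum (𝓞 K)))
    (hS : S₀.Finite) (q : ℕ) (hq : 3 ≤ q) (α : Fin q → Fin 2 → K)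
    (hα : ∀ i j, i ≠ j → α i 0 * α j 1 - α i 1 * α j 0 ≠ 0) :
    ((∀ n : Ideal (𝓞 K), n ≠ ⊥ → ∀ Y : ℝ, 1 ≤ Y → (Points (primesOf S₀ n) α Y).Finite) ∧
      ∀ η : ℝ, 0 < η → ∃ Y₀ : ℝ, ∀ n : Ideal (𝓞 K), n ≠ ⊥ → ∀ Y : ℝ, Y₀ ≤ Y →
        Y ^ (2 * (Module.finrank ℚ K : ℝ) / q - η) ≤ ((Points (primesOf S₀ n) α Y).ncard : ℝ)) ∧
    ∀ ε B : ℝ, 0 < ε → ∃ ν : ℝ, 0 < ν ∧
      (∃ C : ℝ, ∀ X : ℕ, 1 ≤ X → ∀ δ : ℝ, 0 < δ →
        proportion K X {n | ∃ Y : ℝ, 1 ≤ Y ∧
          C / δ * Y ^ (2 * (Module.finrank ℚ K : ℝ) / q - ν) <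
            ((Close (primesOf S₀ n) α ε B Y).ncard : ℝ)} ≤ δ) ∧
      ∀ δ : ℝ, 0 < δ → ∃ Y₁ : ℝ, ∀ X : ℕ, 1 ≤ X →
        proportion K X {n | ∃ Y : ℝ, Y₁ ≤ Y ∧
          Y ^ (-ν) * ((Points (primesOf S₀ n) α Y).ncard : ℝ) <
            ((Close (primesOf S₀ n) α ε B Y).ncard : ℝ)} ≤ δ := by
  have h := Pool.Agent.Y911.US.main S₀ hS hq α hα
  exact ⟨⟨h.1, fun η hη => (h.2.1 η hη).1⟩, fun ε B hε =>
    Pool.Agent.Y911.US.main2 S₀ hS hq α hα ε B hε⟩

end Pool.Agent.Results.MP_e44225_nt.AlmostAllPlacesAndPoints
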