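import Mathlib
import Pool.Agent.Y135.EV

/-!
# Vojta's inequality with a logarithmic error term on `P¹`, for EVERY reduced divisor

Let `k` be any number field, `X = P¹` over `k`, `A = O(1)`, `K_X = O(-2)`.  Every reduced effective
divisor `D` of `P¹` over `k^alg` with finitely many points is a finite subset of
`P¹(K) = K ∪ {∞}` for some finite extension `K` of `k`; all points below are in `K`, so they have
degree at most `[K:k]` over `k`.  The inequality of Q1, with a constant which does not depend on
`S`, fails as soon as `D` has at least three points, and it holds for the points of `K` if `D` has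
at most two points.
-/

namespace Pool.Agent.Results.MP_e44225_nt.EveryDivisorOnLine

open NumberField Real Pool.Agent.Results.MP_e44225_nt.LogTermDependsOnS

/-- The logarithmic height for `O(1)` of a point `x ∈ K ⊂ P¹(K)`, normalised relative to `k`:
the height with respect to `K` divided by `[K:k]` (it does not depend on `K`). -/
noncomputable def height (k : Type*) {K : Type*} [Field k] [Field K] [NumberField K] [Algebra k K]
    (x : K) : ℝ := Height.logHeight₁ x / (Module.finrank k K : ℝ)

/-- The proximity function `m_S(D, x)` normalised relative to `k`, for a reduced divisor `D` on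
`P¹`, given by its points in `P¹(K) = K ∪ {∞}`; `S` is the set of the finite places of `K` above
the finite places of the set in question (all infinite places are always included). -/
noncomputable def prox (k : Type*) {K : Type*} [Field k] [Field K] [NumberField K] [Algebra k K]
    (S : Finset (FinitePlace K)) (D : Finset (Option K)) (x : K) : ℝ :=
  proximity S D x / (Module.finrank k K : ℝ)

/-- The logarithmic discriminant `d(x) = log |Disc (k(x))| / [k(x) : k]` of a point `x ∈ K`. -/
noncomputable def logDisc (k : Type*) {K : Type*} [Field k] [NumberField k] [Field K]
    [NumberField K] [Algebra k K] (x : K) : ℝ :=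
  log |(discr (IntermediateField.adjoin k {x}) : ℝ)| /
    (Module.finrank k (IntermediateField.adjoin k {x}) : ℝ)

/-- **Vojta's inequality with a logarithmic error term on `P¹`, for every reduced divisor.**
Let `k` be a number field, `K` a finite extension of `k` and `D` a finite set of points of
`P¹(K) = K ∪ {∞}`.

(1) If `D` has at least three points, then for every finite set `T` of rational primes, every `C`
with `0 < C < [k : ℚ] (|T| - 1)` and every `B`, the inequality
`h_K(x) + m_S(D, x) < C log⁺ h_A(x) + d(x) + B` fails for infinitely many `x ∈ K`, where `S` is the
set of all infinite places and all places above the primes of `T`.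

(2) If `D` has at most two points, then for every finite set of places `S`, every `C > 0` and every
`B` the inequality `h_K(x) + m_S(D, x) < C log⁺ h_A(x) + d(x) + B` holds for all but finitely many
`x ∈ K`. -/
theorem result (k K : Type*) [Field k] [NumberField k] [Field K] [NumberField K] [Algebra k K]
    (D : Finset (Option K)) :
    (3 ≤ D.card → ∀ (T : Finset ℕ), (∀ p ∈ T, p.Prime) → ∀ C B : ℝ, 0 < C →
      C < (Module.finrank ℚ k : ℝ) * ((T.card : ℝ) - 1) →
      {x : K | some x ∉ D ∧ C * log⁺ (height k x) + logDisc k x + B ≤
        -2 * height k x + prox k (placesOver K T) D x}.Infinite) ∧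
    (D.card ≤ 2 → ∀ (S : Finset (FinitePlace K)) (C B : ℝ), 0 < C →
      {x : K | some x ∉ D ∧ C * log⁺ (height k x) + logDisc k x + B ≤
        -2 * height k x + prox k S D x}.Finite) := by
  have hn1 : 1 ≤ Module.finrank k K := Module.finrank_pos
  have hn : (1 : ℝ) ≤ (Module.finrank k K : ℝ) := by exact_mod_cast hn1
  have hn0 : (0 : ℝ) < (Module.finrank k K : ℝ) := by linarith
  refine ⟨?_, ?_⟩
  · intro hD T hT C B hC0 hC
    -- the logarithmic discriminant is bounded
    have hfin : Finite (IntermediateField k K) :=
      Field.finite_intermediateField_of_exists_primitive_element k K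
        (Field.exists_primitive_element k K)
    obtain ⟨R, hR⟩ := Set.Finite.bddAbove (Set.finite_range (fun F : IntermediateField k K =>
      log |(discr F : ℝ)| / (Module.finrank k F : ℝ)))
    have hR' : ∀ x : K, logDisc k x ≤ R := fun x =>
      hR (Set.mem_range_self (IntermediateField.adjoin k {x}))
    have htower : (Module.finrank ℚ K : ℝ) = (Module.finrank ℚ k : ℝ) * (Module.finrank k K : ℝ) := by
      exact_mod_cast (Module.finrank_mul_finrank ℚ k K).symm
    have h := Pool.Agent.Y135.EV.infinite_three D hD T hT (C * Module.finrank k K)
      ((R + B) * Module.finrank k K) (by positivity) (by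
        rw [htower]
        calc C * (Module.finrank k K : ℝ)
            < ((Module.finrank ℚ k : ℝ) * ((T.card : ℝ) - 1)) * (Module.finrank k K : ℝ) := by
              exact mul_lt_mul_of_pos_right hC hn0
          _ = _ := by ring)
    refine h.mono ?_
    rintro x ⟨hx, hx2⟩
    refine ⟨hx, ?_⟩
    have h0 := Height.zero_le_logHeight₁ x
    have h1 : log⁺ (height k x) ≤ log⁺ (Height.logHeight₁ x) :=
      posLog_le_posLog (by unfold height; positivity) (by
        unfold height
        exact div_le_self h0 hn)
    have h2 := mul_le_mul_of_nonneg_left h1 hC0.le
    have h3 := hR' x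
    have h4 : C * log⁺ (Height.logHeight₁ x) + (R + B) ≤
        (-2 * Height.logHeight₁ x + proximity (placesOver K T) D x) / (Module.finrank k K : ℝ) := by
      rw [le_div_iff₀ hn0]
      linarith
    have h5 : -2 * height k x + prox k (placesOver K T) D x =
        (-2 * Height.logHeight₁ x + proximity (placesOver K T) D x) / (Module.finrank k K : ℝ) := by
      unfold height prox
      ring
    rw [h5]
    linarith
  · intro hD S C B hC0
    obtain ⟨R, hR⟩ := Pool.Agent.Y135.EV.bounded_two S D hD
    refine (finite_setOfPred_logHeight₁_le K
      ((Module.finrank k K : ℝ) * exp ((|R| - B) / C))).subset ?_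
    rintro x ⟨hx, hx2⟩
    have h0 := Height.zero_le_logHeight₁ x
    have h1 := hR x hx
    have hdisc : 0 ≤ logDisc k x := by
      unfold logDisc
      apply div_nonneg _ (Nat.cast_nonneg _)
      apply log_nonneg
      have h2 : discr (IntermediateField.adjoin k {x}) ≠ 0 := discr_ne_zero _
      have h3 : 1 ≤ |discr (IntermediateField.adjoin k {x})| := Int.one_le_abs h2
      exact_mod_cast h3
    have h5 : -2 * height k x + prox k S D x =
        (-2 * Height.logHeight₁ x + proximity S D x) / (Module.finrank k K : ℝ) := by
      unfold height prox
      ring
    have h6 : (-2 * Height.logHeight₁ x + proximity S D x) / (Module.finrank k K : ℝ) ≤ |R| := by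
      rw [div_le_iff₀ hn0]
      have h7 := le_abs_self R
      have h8 := abs_nonneg R
      nlinarith
    have h9 : log⁺ (height k x) ≤ (|R| - B) / C := by
      rw [le_div_iff₀ hC0]
      linarith
    change Height.logHeight₁ x ≤ _
    by_cases hh : height k x ≤ 0
    · have h10 : Height.logHeight₁ x ≤ 0 := by
        unfold height at hh
        rw [div_le_iff₀ hn0] at hh
        linarith
      refine h10.trans (by positivity)
    · push Not at hh
      have h11 : log (height k x) ≤ (|R| - B) / C := (le_max_right _ _).trans h9
      have h12 : height k x ≤ exp ((|R| - B) / C) := by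
        rw [← exp_log hh]
        exact exp_le_exp.2 h11
      have h13 : Height.logHeight₁ x = (Module.finrank k K : ℝ) * height k x := by
        unfold height
        field_simp
      rw [h13]
      exact mul_le_mul_of_nonneg_left h12 hn0.le

end Pool.Agent.Results.MP_e44225_nt.EveryDivisorOnLine
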