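import Mathlib
import Pool.Agent.Y557.OE.SetW

/-!
# The error term in Vojta's inequality for curves: linear and negative outside one exceptional set for
all curves over all number fields, all divisors and all degrees

Let `K` be a number field and `a_1, …, a_q` distinct rational numbers, `q ≥ 3`, for example `q = 3`.
We consider ALL number fields `k`, all smooth projective curves `C` over `k` and all finite maps
`t : C → ℙ¹` of degree `N` over `k` which are unramified outside the fibres over the `a_j`. By
Belyi's theorem every curve over every number field has such maps, and every reduced divisor `D` on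
`C` is contained in the fibres over the `a_j` for some such map. Let `A` be the ring of the functions
on `C` with poles only over `∞`: a Dedekind domain, finite over `k[t]`. Let
`y_{j 0} = t - a_j, y_{j 1}, …` be generators of the radical of the ideal `(t - a_j)`, the ideal of
the reduced fibre `F_j` over `a_j`. Then `F = ∑ F_j ≥ D` and
`(deg K_C) / N = q - 2 - (∑_j dim (A / (y_{j 0}, y_{j 1}, …))) / N`, so that the height `h_K(P)` of a
point `P` with `t(P) = x` is this number times `h(x)`, up to `ε h(x) + O(1)`.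

The points `P` of `C` (not over `∞`) over a number field `L` containing `k` are the homomorphisms
`φ : A → L` over `k`, and `λ_v(P) = ∑_j max(0, - log max_i |y_{j i}(P)|_v)` is a Weil function of
`F` at `v`.

The elements `x` of `K`, of all heights, are ordered by the truncated counting function of
`[a_1] + … + [a_q]` on the line; there are `X ^ (2 / q + o(1))` of them for which it is at most
`log X`. We prove that for every `κ > 0` there is a set `E ⊆ K`, which contains only
`O(X ^ (2 / q - ν))` of them, such that for all `k`, `C` and `t`, with a constant `c` depending on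
these data, all points `P` of `C` over all `x` not in `E`, all number fields `L` containing `k` and
`K` over which `P` is defined and all finite sets `S` of rational primes satisfy
`m_S(F, P) + (deg K_C / N) h(x) ≤ d(L) - (2 - κ) h(x) + ∑_{p ∈ S} log p + c`, and that for all `k`,
`C`, `t` and `S` they satisfy `m_S(F, P) + (deg K_C / N) h(x) < d(L) - (2 - κ) h(x)` for all `x` not
in `E` with finitely many exceptions. So the inequality of the question holds for the points of all
degrees over the `x` not in `E`, with the error term `- (2 - κ) h(x)` instead of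
`C log⁺ h_A(P)`, uniformly in the degree, in `S` and in the curve.
Here `k` and `K` are independent of each other. The height `h`, the proximity function `m_S` and the
logarithmic discriminant `d(L)` are the absolute ones: those relative to `k` divided by `[k : ℚ]`.
(For `L = K k(P)` one has `d(L) ≤ d(k(P)) + d(K)`.)
-/

set_option autoImplicit false

namespace Pool.Agent.Results.MP_e44225_nt.OneExceptionalSet

open Polynomial IsDedekindDomain NumberField

/-- The function `t` on the curve with the ring of functions `A`. -/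
noncomputable def coord (k A : Type) [Field k] [CommRing A] [Algebra k[X] A] : A :=
  algebraMap k[X] A X

/-- The absolute logarithmic height of the point `x` of the line. -/
noncomputable def height {K : Type} [Field K] [NumberField K] (x : K) : ℝ :=
  Height.logHeight₁ x / Module.finrank ℚ K

/-- `max (0, - log max_i c_i)` -/
noncomputable def minusLog {s : ℕ} (c : Fin (s + 1) → ℝ) : ℝ := max 0 (-Real.log (⨆ i, c i))

open Classical in
/-- The proximity function `m_S(F, P)`: the sum over the infinite places `w` (with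
`mult w = [L_w : ℝ]`) and the primes `v` above the primes of `S` of the local heights
`∑_j max (0, - log max_i |y_{j i}(P)|)`, divided by `[L : ℚ]`. The absolute values are normalised
so that the product formula holds: `|b|_v = N(v) ^ (- v(b))`. -/
noncomputable def proximity {k A : Type} [Field k] [CommRing A] [Algebra k A] (S : Finset ℕ)
    {q : ℕ} {u : Fin q → ℕ} (y : ∀ j, Fin (u j + 1) → A) {L : Type} [Field L] [NumberField L]
    [Algebra k L] (φ : A →ₐ[k] L) : ℝ :=
  ((∑ w : InfinitePlace L, (w.mult : ℝ) * ∑ j, minusLog (fun i => w (φ (y j i)))) +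
    ∑ᶠ v : HeightOneSpectrum (𝓞 L), if ∃ p ∈ S, (p : 𝓞 L) ∈ v.asIdeal then
      ∑ j, minusLog (fun i => FinitePlace.mk v (φ (y j i))) else 0) / Module.finrank ℚ L

open Classical in
/-- The truncated counting function of `[a_1] + … + [a_q]` at the point `x` of the line over `K`:
the sum of `log N(v)` over the primes `v` of `K` at which `x` and some `a_j` have the same
reduction. -/
noncomputable def counting {K : Type} [Field K] [NumberField K] {q : ℕ}
    (a : Fin q → K) (x : K) : ℝ :=
  ∑ᶠ v : HeightOneSpectrum (𝓞 K),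
    if ∃ j, v.valuation K (x - a j) < max (v.valuation K (a j)) 1 * max (v.valuation K x) 1
    then Real.log (Ideal.absNorm v.asIdeal) else 0

/-- The (absolute) logarithmic discriminant `d(L) = log |disc L| / [L : ℚ]`. -/
noncomputable def logDisc (L : Type) [Field L] [NumberField L] : ℝ :=
  Real.log |(NumberField.discr L : ℝ)| / Module.finrank ℚ L

/-- `q - 2 - (∑_j dim (A / (y_{j 0}, y_{j 1}, …))) / N`, where `N` is the rank of `A` over `k[t]`:
the number `(deg K_C) / N` if the `y_{j i}` generate the ideals of the reduced fibres and `t` is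
unramified outside them. -/
noncomputable def canonical (k : Type) {A : Type} [Field k] [CommRing A] [Algebra k A]
    [Algebra k[X] A] {q : ℕ} {u : Fin q → ℕ} (y : ∀ j, Fin (u j + 1) → A) : ℝ :=
  q - 2 - (∑ j, (Module.finrank k (A ⧸ Ideal.span (Set.range (y j))) : ℝ)) /
    Module.finrank k[X] A

/-- The elements `x` of `K`, of whatever height, different from the `a_j`, whose truncated counting
function with respect to `[a_1] + … + [a_q]` is at most `log X`. -/
def Values (K : Type) [Field K] [NumberField K] {q : ℕ} (a : Fin q → ℚ) (X : ℝ) : Set K :=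
  {x | (∀ j, x ≠ algebraMap ℚ K (a j)) ∧
    counting (fun j => algebraMap ℚ K (a j)) x ≤ Real.log X}

open Classical in
theorem counting_eq {K : Type} [Field K] [NumberField K] {q : ℕ}
    (a : Fin q → K) {x : K} (hx : ∀ j, x ≠ a j) :
    counting a x = Pool.Agent.TH876.KR.counting (Pool.Agent.Y557.OE.noS K)
      (fun j => Pool.Agent.Y728.AK.pK (a j)) ![x, 1] := by
  rw [← Pool.Agent.Y728.AK.cntK_eq ∅ a hx]
  unfold counting Pool.Agent.Y728.AK.cntK Pool.Agent.Y728.AK.NearK
  refine finsum_congr fun v => ?_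
  by_cases h : ∃ j,
      v.valuation K (x - a j) < max (v.valuation K (a j)) 1 * max (v.valuation K x) 1
  · exact (if_pos h).trans (if_pos ⟨Finset.notMem_empty v, h⟩).symm
  · exact (if_neg h).trans (if_neg fun h' => h h'.2).symm

theorem form_iff {K : Type} [Field K] {a x : K} :
    Pool.Agent.TH876.KR.form (Pool.Agent.Y728.AK.pK a) ![x, 1] ≠ 0 ↔ x ≠ a := by
  have e : Pool.Agent.TH876.KR.form (Pool.Agent.Y728.AK.pK a) ![x, 1] = a - x := by
    show a * 1 - 1 * x = a - x
    ring
  rw [e, sub_ne_zero]
  exact ne_comm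

/-- an element as a tuple of length one -/
def one {K : Type} (x : K) : Fin 1 → K := fun _ => x

theorem one_bij (K : Type) : Function.Bijective (one : K → Fin 1 → K) := by
  refine ⟨fun x y h => congrFun h 0, fun y => ⟨y 0, ?_⟩⟩
  funext i
  rw [Subsingleton.elim i 0]
  rfl

theorem values_eq {K : Type} [Field K] [NumberField K] {q : ℕ} (a : Fin q → ℚ) (X : ℝ) :
    Values K a X = one ⁻¹' Pool.Agent.Y728.MN.TupG (Pool.Agent.Y557.OE.noS K)
      (fun j => Pool.Agent.Y728.AK.pK (algebraMap ℚ K (a j))) ∅ X := by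
  ext x
  constructor
  · rintro ⟨h1, h2⟩
    refine ⟨fun i => ⟨fun j => form_iff.2 (h1 j), ?_⟩, fun p hp =>
      absurd hp (Finset.notMem_empty p)⟩
    show Pool.Agent.TH876.KR.counting (Pool.Agent.Y557.OE.noS K)
      (fun j => Pool.Agent.Y728.AK.pK (algebraMap ℚ K (a j))) ![x, 1] ≤ Real.log X
    rw [← counting_eq (fun j => algebraMap ℚ K (a j)) h1]
    exact h2
  · rintro ⟨h, -⟩
    obtain ⟨h1, h2⟩ := h 0
    have h3 : ∀ j, x ≠ algebraMap ℚ K (a j) := fun j => form_iff.1 (h1 j)
    refine ⟨h3, ?_⟩
    rw [counting_eq (fun j => algebraMap ℚ K (a j)) h3]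
    exact h2

theorem ncard_pre {K : Type} (s : Set (Fin 1 → K)) :
    ((one : K → Fin 1 → K) ⁻¹' s).ncard = s.ncard :=
  Set.ncard_preimage_of_injective_subset_range (one_bij K).1
    ((one_bij K).2.range_eq ▸ Set.subset_univ s)

open Classical in
lemma proximity_eq {k A : Type} [Field k] [CommRing A] [Algebra k A] (S : Finset ℕ) {q : ℕ}
    {u : Fin q → ℕ} (y : ∀ j, Fin (u j + 1) → A) {L : Type} [Field L] [NumberField L]
    [Algebra k L] (φ : A →ₐ[k] L)
    (hf : ∀ j, {v : HeightOneSpectrum (𝓞 L) |
      Pool.Agent.W223.AC.lamF (y j) (φ : A →+* L) v ≠ 0}.Finite) :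
    proximity S y φ = (∑ j, (∑ w : InfinitePlace L, (w.mult : ℝ) *
      Pool.Agent.W223.AC.lamI (y j) (φ : A →+* L) w +
        Pool.Agent.W223.AC.mS S (y j) (φ : A →+* L))) / Module.finrank ℚ L := by
  unfold proximity
  refine congrArg (fun t : ℝ => t / Module.finrank ℚ L) ?_
  rw [Finset.sum_add_distrib]
  congr 1
  · rw [Finset.sum_comm]
    refine Finset.sum_congr rfl fun w _ => ?_
    rw [Finset.mul_sum]
    rfl
  · unfold Pool.Agent.W223.AC.mS
    rw [← finsum_sum_comm]
    · refine finsum_congr fun v => ?_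
      split_ifs
      · rfl
      · rw [Finset.sum_const_zero]
    · intro j _
      refine (hf j).subset fun v hv => ?_
      rw [Function.mem_support] at hv
      intro h
      apply hv
      rw [h, ite_self]

/-- the heights of the elements of `K` tend to infinity -/
theorem height_finite (K : Type) [Field K] [NumberField K] (B : ℝ) :
    {x : K | height x ≤ B}.Finite := by
  have hd0 : (0 : ℝ) < (Module.finrank ℚ K : ℝ) := by exact_mod_cast Module.finrank_pos
  refine (Northcott.finite_le (h := Height.logHeight₁ (K := K))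
    (B * Module.finrank ℚ K)).subset fun x hx => ?_
  have h1 : Height.logHeight₁ x / Module.finrank ℚ K ≤ B := hx
  rw [div_le_iff₀ hd0] at h1
  exact h1

theorem height_nonneg {K : Type} [Field K] [NumberField K] (x : K) : 0 ≤ height x :=
  div_nonneg (Height.zero_le_logHeight₁ x) (Nat.cast_nonneg _)

/-- **The error term in Vojta's inequality, one exceptional set for all curves over all number fields,
points of all heights and all degrees.** Let `K` be a number field and `a_1, …, a_q` distinct
rational numbers, `q ≥ 3`.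

(1) The number of the elements `x` of `K`, of whatever height, with truncated counting function
`≤ log X` with respect to `[a_1] + … + [a_q]` is `X ^ (2 / q + o(1))`.

(2) For every `κ > 0` there is a set `E ⊆ K` such that at most `C X ^ (2 / q - ν)` of them, for
large `X` at most `X ^ (-ν)` times their number, are in `E`, and such that the following holds for
all number fields `k`. Let `A` be a Dedekind domain, finite over `k[t]` and containing it (the ring
of functions of a smooth affine curve over `k` which is finite over the `t`-line), of rank `N`, and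
let `y_{j 0} = t - a_j, y_{j 1}, …` be elements of the radical of the ideal `(t - a_j)` of `A`, for
example generators. Write `g` for `q - 2 - (∑_j dim (A / (y_{j 0}, y_{j 1}, …))) / N`.

(2a) There is a constant `c` such that for all `x` in `K`, different from the `a_j`, which are not in
`E`, all points `P` of the curve with `t(P) = x`, all number fields `L` containing `k` and `K` over
which `P` is defined and all finite sets `S` of primes satisfy
`m_S(F, P) + g h(x) ≤ d(L) - (2 - κ) h(x) + ∑_{p ∈ S} log p + c`.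

(2b) For every finite set `S` of primes, all but finitely many of the `x` not in `E` satisfy
`m_S(F, P) + g h(x) < d(L) - (2 - κ) h(x)` for all these `P` and `L`. -/
theorem result (K : Type) [Field K] [NumberField K] (q : ℕ) (hq : 3 ≤ q) (a : Fin q → ℚ)
    (ha : Function.Injective a) :
    (∀ δ : ℝ, 0 < δ →
      (∃ C : ℝ, ∀ X : ℝ, 1 ≤ X → (Values K a X).Finite ∧
        ((Values K a X).ncard : ℝ) ≤ C * X ^ (2 / (q : ℝ) + δ)) ∧
      ∃ X₀ : ℝ, ∀ X : ℝ, X₀ ≤ X → X ^ (2 / (q : ℝ) - δ) ≤ ((Values K a X).ncard : ℝ)) ∧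
    ∀ κ : ℝ, 0 < κ → ∃ E : Set K,
      (∃ ν C : ℝ, 0 < ν ∧ 0 < C ∧ ∀ X : ℝ, 1 ≤ X →
        ((E ∩ Values K a X).ncard : ℝ) ≤ C * X ^ (2 / (q : ℝ) - ν)) ∧
      (∃ ν X₀ : ℝ, 0 < ν ∧ ∀ X : ℝ, X₀ ≤ X →
        ((E ∩ Values K a X).ncard : ℝ) ≤ X ^ (-ν) * ((Values K a X).ncard : ℝ)) ∧
      ∀ (k : Type) [Field k] [NumberField k] (A : Type) [CommRing A] [IsDedekindDomain A]
        [Algebra k A] [Algebra k[X] A] [IsScalarTower k k[X] A] [Module.Finite k[X] A]
        [FaithfulSMul k[X] A] (u : Fin q → ℕ) (y : ∀ j, Fin (u j + 1) → A),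
        (∀ j, y j 0 = coord k A - algebraMap k A (algebraMap ℚ k (a j))) →
        (∀ j i, y j i ∈
          (Ideal.span {coord k A - algebraMap k A (algebraMap ℚ k (a j))}).radical) →
        (∃ c : ℝ, ∀ x : K, x ∉ E → (∀ j, x ≠ algebraMap ℚ K (a j)) →
          ∀ (L : Type) [Field L] [NumberField L] [Algebra K L] [Algebra k L] (φ : A →ₐ[k] L),
            φ (coord k A) = algebraMap K L x → ∀ S : Finset ℕ, (∀ p ∈ S, p.Prime) →
              proximity S y φ + canonical k y * height x ≤
                logDisc L - (2 - κ) * height x + ∑ p ∈ S, Real.log p + c) ∧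
        ∀ S : Finset ℕ, (∀ p ∈ S, p.Prime) → ∃ R : Set K, R.Finite ∧
          ∀ x : K, x ∉ E → x ∉ R → (∀ j, x ≠ algebraMap ℚ K (a j)) →
          ∀ (L : Type) [Field L] [NumberField L] [Algebra K L] [Algebra k L] (φ : A →ₐ[k] L),
            φ (coord k A) = algebraMap K L x →
              proximity S y φ + canonical k y * height x < logDisc L - (2 - κ) * height x := by
  classical
  have hS : (Pool.Agent.Y557.OE.noS K).Finite := Finset.finite_toSet _
  have ha' : ∀ i j, i ≠ j → Pool.Agent.TH876.KR.form
      ((fun j => Pool.Agent.Y728.AK.pK (algebraMap ℚ K (a j))) i)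
      ((fun j => Pool.Agent.Y728.AK.pK (algebraMap ℚ K (a j))) j) ≠ 0 :=
    fun i j hij => Pool.Agent.Y728.AK.formK_ne' fun h => hij (ha ((algebraMap ℚ K).injective h))
  have hval : ∀ X : ℝ, (Values K a X).ncard =
      (Pool.Agent.Y728.MN.TupG (m := 1) (Pool.Agent.Y557.OE.noS K)
        (fun j => Pool.Agent.Y728.AK.pK (algebraMap ℚ K (a j))) ∅ X).ncard := by
    intro X
    rw [values_eq, ncard_pre]
  have e21 : 2 * ((1 : ℕ) : ℝ) / (q : ℝ) = 2 / q := by push_cast; ring
  have hlow : ∀ δ : ℝ, 0 < δ → ∃ X₀ : ℝ, 1 ≤ X₀ ∧ ∀ X : ℝ, X₀ ≤ X →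
      X ^ (2 / (q : ℝ) - δ) ≤ ((Values K a X).ncard : ℝ) := by
    intro δ hδ
    have h := Pool.Agent.Y728.MN.tup_low (m := 1) hq one_pos hS ha' (G := ∅)
      (fun p hp => absurd hp (Finset.notMem_empty p)) δ hδ
    rw [e21] at h
    simp only [hval]
    exact h
  refine ⟨fun δ hδ => ⟨?_, ?_⟩, fun κ hκ => ?_⟩
  · obtain ⟨C, h⟩ := Pool.Agent.Y728.MN.tup_all (m := 1) hq one_pos hS ha' ∅ δ hδ
    rw [e21] at h
    refine ⟨C, fun X hX => ⟨?_, ?_⟩⟩
    · rw [values_eq]
      exact (h X hX).1.preimage (one_bij K).1.injOn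
    · rw [hval]
      exact (h X hX).2
  · obtain ⟨X0, -, h⟩ := hlow δ hδ
    exact ⟨X0, h⟩
  obtain ⟨ε, hεe⟩ : ∃ ε : ℝ, ε = κ / 2 := ⟨_, rfl⟩
  have hε : 0 < ε := by rw [hεe]; positivity
  obtain ⟨E, hupp, hE⟩ := Pool.Agent.Y557.OE.one_exc K one_pos hq
    (fun j => algebraMap ℚ K (a j)) ((algebraMap ℚ K).injective.comp ha) (κ := ε / 2)
    (by positivity)
  rw [e21] at hupp
  have hupp' : ∃ ν C : ℝ, 0 < ν ∧ 0 < C ∧ ∀ X : ℝ, 1 ≤ X →
      ((one ⁻¹' E ∩ Values K a X).ncard : ℝ) ≤ C * X ^ (2 / (q : ℝ) - ν) := by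
    simp only [values_eq, ← Set.preimage_inter, ncard_pre]
    exact hupp
  refine ⟨one ⁻¹' E, hupp', ?_, ?_⟩
  · obtain ⟨ν, C, hν, hC, h1⟩ := hupp'
    obtain ⟨X0, hX0, h2⟩ := hlow (ν / 2) (by positivity)
    exact ⟨ν / 4, _, by positivity, Pool.Agent.Y728.AK.ratio_of hν hC hX0 h1 h2⟩
  intro k _ _ A _ _ _ _ _ _ _ u y hy0 hyr
  obtain ⟨c, hc⟩ := Pool.Agent.Y557.OE.coreW (K := K) (m := 1) (A := fun _ => A) hq a
    (fun _ => u) (fun _ => y) (fun _ => hy0) (fun _ => hyr) (G := ∅)
    (fun p hp => absurd hp (Finset.notMem_empty p)) hε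
  obtain ⟨d, hd⟩ : ∃ d : ℝ, d = (Module.finrank ℚ K : ℝ) := ⟨_, rfl⟩
  have hd0 : 0 < d := by rw [hd]; exact_mod_cast Module.finrank_pos
  have hmain : ∀ x : K, x ∉ one ⁻¹' E → (∀ j, x ≠ algebraMap ℚ K (a j)) →
      ∀ (L : Type) [Field L] [NumberField L] [Algebra K L] [Algebra k L] (φ : A →ₐ[k] L),
        φ (coord k A) = algebraMap K L x → ∀ S : Finset ℕ, (∀ p ∈ S, p.Prime) →
          proximity S y φ + canonical k y * height x ≤
            logDisc L - (2 - ε) * height x + ∑ p ∈ S, Real.log p + c / d := by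
    intro x hxE hxa L _ _ _ _ φ hφ S hS'
    obtain ⟨hinj, hnn⟩ := hE (one x) hxE (fun _ => hxa)
    obtain ⟨hfin, h0⟩ := hc (one x) (fun _ => hxa) hinj hnn L (fun _ => φ) (fun _ => hφ)
    have h1 := h0 S hS'
    rw [Fin.sum_univ_one, Fin.sum_univ_one, Finset.sum_empty, add_zero] at h1
    have hpr := proximity_eq S y φ (fun j => hfin 0 j)
    have hfd : FiniteDimensional K L := Module.Finite.of_restrictScalars_finite ℚ K L
    obtain ⟨mL, hmL⟩ : ∃ mL : ℝ, mL = (Module.finrank K L : ℝ) := ⟨_, rfl⟩
    have hm0 : 0 < mL := by rw [hmL]; exact_mod_cast Module.finrank_pos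
    have htow : (Module.finrank ℚ L : ℝ) = d * mL := by
      rw [hd, hmL]
      exact_mod_cast (Module.finrank_mul_finrank ℚ K L).symm
    obtain ⟨lL, hlL⟩ : ∃ lL : ℝ, lL = Real.log |(NumberField.discr L : ℝ)| := ⟨_, rfl⟩
    obtain ⟨Rs, hRs⟩ : ∃ Rs : ℝ, Rs = ∑ p ∈ S, Real.log p := ⟨_, rfl⟩
    obtain ⟨W0, hW0⟩ : ∃ W0 : ℝ, W0 = ∑ j, (∑ w : InfinitePlace L, (w.mult : ℝ) *
        Pool.Agent.W223.AC.lamI (y j) (φ : A →+* L) w +
          Pool.Agent.W223.AC.mS S (y j) (φ : A →+* L)) := ⟨_, rfl⟩
    obtain ⟨g, hg⟩ : ∃ g : ℝ, g = canonical k y := ⟨_, rfl⟩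
    obtain ⟨H, hH⟩ : ∃ H : ℝ, H = Height.logHeight₁ x := ⟨_, rfl⟩
    have hg2 : (q : ℝ) - (∑ j, (Module.finrank k (A ⧸ Ideal.span (Set.range (y j))) : ℝ)) /
        Module.finrank k[X] A = g + 2 := by
      rw [hg]
      unfold canonical
      ring
    have h2 : mL * ((g + 2 - ε) * H) + W0 ≤ lL + d * mL * Rs + mL * c := by
      rw [hW0, ← hg2, hH, hlL, hRs, ← htow, hmL]
      exact h1
    rw [hpr, ← hW0, ← hRs, ← hg]
    unfold logDisc height
    rw [← hlL, htow, ← hH, ← hd]
    have hdm : 0 < d * mL := mul_pos hd0 hm0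
    have h3 : (mL * ((g + 2 - ε) * H) + W0) / (d * mL) ≤
        (lL + d * mL * Rs + mL * c) / (d * mL) :=
      div_le_div_of_nonneg_right h2 hdm.le
    have e2 : (mL * ((g + 2 - ε) * H) + W0) / (d * mL) =
        W0 / (d * mL) + g * (H / d) + (2 - ε) * (H / d) := by
      field_simp
      ring
    have e3 : (lL + d * mL * Rs + mL * c) / (d * mL) = lL / (d * mL) + Rs + c / d := by
      field_simp
    rw [e2, e3] at h3
    linarith
  refine ⟨⟨c / d, ?_⟩, fun S hS' => ?_⟩
  · intro x hxE hxa L _ _ _ _ φ hφ S hS'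
    have h1 := hmain x hxE hxa L φ hφ S hS'
    have h2 := mul_nonneg hε.le (height_nonneg x)
    have h3 : κ = ε + ε := by rw [hεe]; ring
    rw [h3]
    linarith
  · refine ⟨{x : K | height x ≤ (∑ p ∈ S, Real.log (p : ℝ) + c / d) / ε}, height_finite K _, ?_⟩
    intro x hxE hxR hxa L _ _ _ _ φ hφ
    have h1 := hmain x hxE hxa L φ hφ S hS'
    have h2 : (∑ p ∈ S, Real.log (p : ℝ) + c / d) / ε < height x := by
      by_contra h
      exact hxR (not_lt.1 h)
    rw [div_lt_iff₀ hε] at h2
    have h3 : κ = ε + ε := by rw [hεe]; ring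
    rw [h3]
    linarith

end Pool.Agent.Results.MP_e44225_nt.OneExceptionalSet
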